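import Pool.Agent.Helper65.KG.Goals

/-!
# Project KG (MP_20ee5e_ag), packet SV: one slice
-/

set_option autoImplicit false

open MeasureTheory Set

namespace Pool.Agent.Helper12.KG.SV

open Pool.Agent.Helper70.KN Pool.Agent.Helper65.KG

variable {N : ℕ}

theorem dt_pv (w z : Fin N → ℝ) (t : ℝ) (v : Fin N → ℕ) :
    dt w (pv z t v) = dt w z + t * dt w (cv v) := by
  unfold dt pv cv
  rw [Finset.mul_sum, ← Finset.sum_add_distrib]
  refine Finset.sum_congr rfl fun j _ => ?_
  ring

theorem continuous_zr (J : Finset (Fin N)) : Continuous (zr J) := by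
  refine continuous_pi fun k => ?_
  unfold zr
  by_cases hk : k ∈ J
  · simp only [hk, if_true]
    exact continuous_const
  · simp only [hk, if_false]
    exact continuous_apply k

theorem continuous_pv (t : ℝ) (v : Fin N → ℕ) : Continuous fun z : Fin N → ℝ => pv z t v := by
  refine continuous_pi fun k => ?_
  unfold pv
  exact (continuous_apply k).add continuous_const

/-- the translation vector -/
noncomputable def av (J' : Finset (Fin N)) (i : Fin N) (s : ℝ) (v : Fin N → ℕ) : Fin N → ℝ :=
  fun k => if k ∈ J' then 0 else s / v i * v k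

theorem zr_upd (J : Finset (Fin N)) (i : Fin N) (hi : i ∉ J) (s : ℝ) (v : Fin N → ℕ)
    (hvi : v i ≠ 0) (hvJ : ∀ k ∈ J, v k = 0) (x : Fin N → ℝ) :
    zr J (Function.update (x + av (insert i J) i s v) i s) =
      pv (zr (insert i J) x) (s / v i) v := by
  funext k
  have hvi' : (v i : ℝ) ≠ 0 := by exact_mod_cast hvi
  have hz : ∀ (J : Finset (Fin N)) (y : Fin N → ℝ), zr J y k = if k ∈ J then 0 else y k :=
    fun _ _ => rfl
  have hp : pv (zr (insert i J) x) (s / v i) v k = zr (insert i J) x k + s / v i * v k := rfl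
  rw [hp, hz, hz]
  by_cases hkJ : k ∈ J
  · rw [if_pos hkJ, if_pos (Finset.mem_insert_of_mem hkJ), hvJ k hkJ]
    simp
  · rw [if_neg hkJ]
    by_cases hki : k = i
    · subst hki
      rw [Function.update_self, if_pos (Finset.mem_insert_self _ _)]
      field_simp
      ring
    · have hk : k ∉ insert i J := by
        rw [Finset.mem_insert]
        tauto
      rw [Function.update_of_ne hki, if_neg hk, Pi.add_apply]
      unfold av
      rw [if_neg hk]

theorem t (hCT : S_CT) (hRY : S_RY) (hGV : S_GV) (hSCF : S_SCF) : S_SV := by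
  classical
  intro N V c hN hT f hf J i hi s hs0 hsc
  have hC := hCT N V c hN hT
  obtain ⟨hconv, hc, h0V, hthick⟩ := hT
  have hT : Thick V c := ⟨hconv, hc, h0V, hthick⟩
  obtain ⟨hr1, hr2, hr3, hr4, hr5, hr6, hr7⟩ := pRH N V (Lc V c) (1 / c) hC
  obtain ⟨hfm, hfh, hfr⟩ := hf
  set L := Lc V c with hL
  set J' : Finset (Fin N) := insert i J with hJ'
  have hl0 : 0 < 1 - s / c := by
    rw [sub_pos, div_lt_one hc]
    exact hsc
  have hl1 : 1 - s / c ≤ 1 := by
    have : 0 ≤ s / c := by positivity
    linarith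
  have hscf := hSCF N V L (1 / c) hC f hfm hfh J' (1 - s / c) hl0 hl1
  have hcard : N - J'.card = N - J.card - 1 := by
    rw [hJ', Finset.card_insert_of_notMem hi, Nat.sub_add_eq]
  rw [hcard] at hscf
  rw [← hscf]
  -- names
  set A : Set (Fin N → ℝ) := {x | x ∈ cyl V J' ∧ rho L (zr J' x) < 1 - s / c} with hA
  set B : Set (Fin N → ℝ) := {x | 0 ≤ x i ∧ x i < 1 ∧ Function.update x i s ∈ cyl V J} with hB
  set F : (Fin N → ℝ) → ENNReal := fun x => f (zr J' x) with hF
  set G : (Fin N → ℝ) → ENNReal := fun x => f (zr J (Function.update x i s)) with hG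
  have hFm : Measurable F := hfm.comp (continuous_zr J').measurable
  have hupd : Measurable fun x : Fin N → ℝ => Function.update x i s :=
    (continuous_id.update i continuous_const).measurable
  have hGm : Measurable G := hfm.comp ((continuous_zr J).measurable.comp hupd)
  have hcylm : ∀ J : Finset (Fin N), MeasurableSet (cyl V J) := fun J => (pMF N V hconv J).1
  have hrz : Measurable fun x : Fin N → ℝ => rho L (zr J' x) :=
    (hr7.comp (continuous_zr J')).measurable
  have hAm : MeasurableSet A := (hcylm J').inter (measurableSet_lt hrz measurable_const)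
  have hBm : MeasurableSet B := by
    have h1 : MeasurableSet {x : Fin N → ℝ | 0 ≤ x i} :=
      measurableSet_le measurable_const (measurable_pi_apply i)
    have h2 : MeasurableSet {x : Fin N → ℝ | x i < 1} :=
      measurableSet_lt (measurable_pi_apply i) measurable_const
    exact h1.inter (h2.inter (hupd (hcylm J)))
  set I : Finset (Fin N → ℕ) := V.filter fun v => v i ≠ 0 ∧ ∀ k ∈ J, v k = 0 with hI
  set P : (Fin N → ℕ) → Set (Fin N → ℝ) := fun v => {x | x ∈ A ∧
    rho L (pv (zr J' x) 1 v) = rho L (zr J' x) + 1 ∧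
    ∀ v' ∈ I, Encodable.encode v' < Encodable.encode v →
      ¬ rho L (pv (zr J' x) 1 v') = rho L (zr J' x) + 1} with hP
  have hgm : ∀ v : Fin N → ℕ, MeasurableSet {x : Fin N → ℝ |
      rho L (pv (zr J' x) 1 v) = rho L (zr J' x) + 1} := fun v =>
    measurableSet_eq_fun (hr7.comp ((continuous_pv 1 v).comp (continuous_zr J'))).measurable
      (hrz.add measurable_const)
  have hPm : ∀ v, MeasurableSet (P v) := by
    intro v
    refine hAm.inter ((hgm v).inter ?_)
    have : {x : Fin N → ℝ | ∀ v' ∈ I, Encodable.encode v' < Encodable.encode v →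
        ¬ rho L (pv (zr J' x) 1 v') = rho L (zr J' x) + 1} =
        ⋂ v' ∈ I, {x : Fin N → ℝ | Encodable.encode v' < Encodable.encode v →
          ¬ rho L (pv (zr J' x) 1 v') = rho L (zr J' x) + 1} := by
      ext x
      simp
    change MeasurableSet {x : Fin N → ℝ | ∀ v' ∈ I, Encodable.encode v' < Encodable.encode v →
        ¬ rho L (pv (zr J' x) 1 v') = rho L (zr J' x) + 1}
    rw [this]
    refine Finset.measurableSet_biInter _ fun v' _ => ?_
    by_cases hlt : Encodable.encode v' < Encodable.encode v
    · simp only [hlt, true_implies]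
      exact (hgm v').compl
    · simp only [hlt, false_implies]
      exact MeasurableSet.univ
  -- the pieces cover
  have hcover : ∀ x ∈ A, ∃ v ∈ I, x ∈ P v := by
    intro x hx
    have hx0 : 0 ≤ x := hx.1.1
    have hz0 : 0 ≤ zr J' x := by
      intro k
      unfold zr
      split_ifs
      · exact le_rfl
      · exact hx0 k
    have hzi : zr J' x i = 0 := by
      unfold zr
      rw [if_pos (Finset.mem_insert_self _ _)]
    have hzJ : ∀ k ∈ J, zr J' x k = 0 := by
      intro k hk
      unfold zr
      rw [if_pos (Finset.mem_insert_of_mem hk)]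
    obtain ⟨v, hv, hvi, hvJ, hvg⟩ := hGV N V c hN hT J i hi (zr J' x) hz0 hzi hzJ
    have hne : (I.filter fun v => rho L (pv (zr J' x) 1 v) = rho L (zr J' x) + 1).Nonempty :=
      ⟨v, Finset.mem_filter.2 ⟨Finset.mem_filter.2 ⟨hv, hvi, hvJ⟩, hvg⟩⟩
    obtain ⟨v0, hv0, hmin⟩ := Finset.exists_min_image _ (fun v => Encodable.encode v) hne
    rw [Finset.mem_filter] at hv0
    refine ⟨v0, hv0.1, hx, hv0.2, fun v' hv' hlt hg => ?_⟩
    have := hmin v' (Finset.mem_filter.2 ⟨hv', hg⟩)
    omega
  -- the translated pieces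
  set Q : (Fin N → ℕ) → Set (Fin N → ℝ) := fun v => {y | y - av J' i s v ∈ P v} with hQ
  have hQm : ∀ v, MeasurableSet (Q v) := fun v => (measurable_id.sub_const _) (hPm v)
  have hIV : ∀ v ∈ I, v ∈ V ∧ v i ≠ 0 ∧ ∀ k ∈ J, v k = 0 := fun v hv => Finset.mem_filter.1 hv
  have hti : ∀ v ∈ I, 0 < s / v i := fun v hv => by
    have : 0 < (v i : ℝ) := by
      have := (hIV v hv).2.1
      exact_mod_cast Nat.pos_of_ne_zero this
    positivity
  have hzQ : ∀ v ∈ I, ∀ y, zr J (Function.update y i s) =
      pv (zr J' (y - av J' i s v)) (s / v i) v := by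
    intro v hv y
    have h := zr_upd J i hi s v (hIV v hv).2.1 (hIV v hv).2.2 (y - av J' i s v)
    rw [sub_add_cancel] at h
    exact h
  have hstep : ∀ v ∈ I, ∫⁻ x, (P v).indicator F x ≤ ∫⁻ y, (Q v).indicator G y := by
    intro v hv
    rw [← lintegral_add_right_eq_self (fun y => (Q v).indicator G y) (av J' i s v)]
    refine lintegral_mono fun x => ?_
    by_cases hx : x ∈ P v
    · have hxQ : x + av J' i s v ∈ Q v := by
        change x + av J' i s v - av J' i s v ∈ P v
        rwa [add_sub_cancel_right]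
      rw [indicator_of_mem hx]
      change F x ≤ (Q v).indicator G (x + av J' i s v)
      rw [indicator_of_mem hxQ]
      change f (zr J' x) ≤ f (zr J (Function.update (x + av J' i s v) i s))
      rw [hzQ v hv, add_sub_cancel_right]
      exact hfr _ v _ (hIV v hv).1 (hti v hv) hx.2.1
    · rw [indicator_of_notMem hx]
      exact bot_le
  have hQB : ∀ v ∈ I, Q v ⊆ B := by
    intro v hv y hy
    obtain ⟨hyA, hyg, -⟩ := hy
    obtain ⟨⟨hx0, hx1, -⟩, hlt⟩ := hyA
    set x := y - av J' i s v with hx
    have hyx : ∀ k ∈ J', y k = x k := by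
      intro k hk
      rw [hx, Pi.sub_apply]
      unfold av
      rw [if_pos hk, sub_zero]
    have hyx' : ∀ k, x k ≤ y k := by
      intro k
      rw [hx, Pi.sub_apply]
      have : 0 ≤ av J' i s v k := by
        unfold av
        split_ifs
        · exact le_rfl
        · exact mul_nonneg (hti v hv).le (Nat.cast_nonneg _)
      linarith
    have hiJ : i ∈ J' := Finset.mem_insert_self _ _
    have hry := (hRY N V c hN hT (zr J' x) v (hIV v hv).1 hyg (s / v i) (hti v hv).le).1
    refine ⟨?_, ?_, ?_, ?_, ?_⟩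
    · rw [hyx i hiJ]
      exact hx0 i
    · rw [hyx i hiJ]
      exact hx1 i hiJ
    · intro k
      by_cases hk : k = i
      · subst hk
        rw [Function.update_self]
        exact hs0.le
      · rw [Function.update_of_ne hk]
        exact (hx0 k).trans (hyx' k)
    · intro j hj
      have hji : j ≠ i := fun h => hi (h ▸ hj)
      rw [Function.update_of_ne hji, hyx j (Finset.mem_insert_of_mem hj)]
      exact hx1 j (Finset.mem_insert_of_mem hj)
    · have hp0 : 0 ≤ zr J (Function.update y i s) := by
        rw [hzQ v hv]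
        intro k
        unfold pv
        refine add_nonneg ?_ (mul_nonneg (hti v hv).le (Nat.cast_nonneg _))
        unfold zr
        split_ifs
        · exact le_rfl
        · exact hx0 k
      rw [hr3 _ hp0, hzQ v hv, ← hx, hry, not_le]
      have hvc : c ≤ v i := hthick v (hIV v hv).1 i (hIV v hv).2.1
      have : s / v i ≤ s / c := div_le_div_of_nonneg_left hs0.le hc hvc
      linarith
  have hge : ∀ v ∈ V, ∀ z : Fin N → ℝ, rho L z + 1 ≤ rho L (pv z 1 v) := by
    intro v hv z
    obtain ⟨w, hw, hww⟩ := hr1 (pv z 1 v)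
    rw [← hww, dt_pv, one_mul]
    exact add_le_add (hr2 z w hw) (hw.2 v hv)
  have hdisj : ∀ v ∈ I, ∀ v' ∈ I, ∀ y, y ∈ Q v → y ∈ Q v' → v = v' := by
    intro v hv v' hv' y hy hy'
    obtain ⟨-, hg, hmin⟩ := hy
    obtain ⟨-, hg', hmin'⟩ := hy'
    obtain ⟨w, hw, hww⟩ := hr1 (zr J (Function.update y i s))
    have h1 := (hRY N V c hN hT _ v (hIV v hv).1 hg (s / v i) (hti v hv).le).2 (hti v hv) w hw
      (by rw [← hzQ v hv]; exact hww)
    have h2 := (hRY N V c hN hT _ v' (hIV v' hv').1 hg' (s / v' i) (hti v' hv').le).2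
      (hti v' hv') w hw (by rw [← hzQ v' hv']; exact hww)
    have g1 : rho L (pv (zr J' (y - av J' i s v')) 1 v) = rho L (zr J' (y - av J' i s v')) + 1 := by
      refine le_antisymm ?_ (hge v (hIV v hv).1 _)
      refine (hr2 _ w hw).trans ?_
      rw [dt_pv, h2.1, h1.2, mul_one]
    have g2 : rho L (pv (zr J' (y - av J' i s v)) 1 v') = rho L (zr J' (y - av J' i s v)) + 1 := by
      refine le_antisymm ?_ (hge v' (hIV v' hv').1 _)
      refine (hr2 _ w hw).trans ?_
      rw [dt_pv, h1.1, h2.2, mul_one]
    have k1 : ¬ Encodable.encode v < Encodable.encode v' := fun h => hmin' v hv h g1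
    have k2 : ¬ Encodable.encode v' < Encodable.encode v := fun h => hmin v' hv' h g2
    exact Encodable.encode_injective (le_antisymm (not_lt.1 k2) (not_lt.1 k1))
  calc ∫⁻ x in A, F x = ∫⁻ x, A.indicator F x := (lintegral_indicator hAm F).symm
    _ ≤ ∫⁻ x, ∑ v ∈ I, (P v).indicator F x := by
        refine lintegral_mono fun x => ?_
        by_cases hx : x ∈ A
        · obtain ⟨v, hv, hxv⟩ := hcover x hx
          rw [indicator_of_mem hx]
          calc F x = (P v).indicator F x := (indicator_of_mem hxv F).symm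
            _ ≤ ∑ v ∈ I, (P v).indicator F x :=
              Finset.single_le_sum (f := fun v => (P v).indicator F x)
                (fun _ _ => bot_le) hv
        · rw [indicator_of_notMem hx]
          exact bot_le
    _ = ∑ v ∈ I, ∫⁻ x, (P v).indicator F x :=
        lintegral_finset_sum I fun v _ => hFm.indicator (hPm v)
    _ ≤ ∑ v ∈ I, ∫⁻ y, (Q v).indicator G y := Finset.sum_le_sum hstep
    _ = ∫⁻ y, ∑ v ∈ I, (Q v).indicator G y :=
        (lintegral_finset_sum I fun v _ => hGm.indicator (hQm v)).symm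
    _ ≤ ∫⁻ y, B.indicator G y := by
        refine lintegral_mono fun y => ?_
        by_cases hy : ∃ v ∈ I, y ∈ Q v
        · obtain ⟨v, hv, hyv⟩ := hy
          rw [indicator_of_mem (hQB v hv hyv)]
          change ∑ v ∈ I, (Q v).indicator G y ≤ G y
          rw [Finset.sum_eq_single v (fun v' hv' hne => ?_) (fun h => absurd hv h),
            indicator_of_mem hyv]
          rw [indicator_of_notMem]
          exact fun h => hne (hdisj v' hv' v hv y h hyv)
        · push Not at hy
          change ∑ v ∈ I, (Q v).indicator G y ≤ _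
          rw [Finset.sum_eq_zero fun v hv => indicator_of_notMem (hy v hv) G]
          exact bot_le
    _ = ∫⁻ y in B, G y := lintegral_indicator hBm G

end Pool.Agent.Helper12.KG.SV
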